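import Pool.Agent.H3.UP.TDU
import Pool.Agent.H3.UP.FTR
import Pool.Agent.H64.NC.SFZ
import Pool.Agent.H64.TP.Main

/-!
# Conical limit points of the closure of the critical orbits lie in large components

`K = KJ {c | IsCrit f c} J f`. `pntg`: if the component of `y` in `K` is contained in the open disc of radius `r'` at `y`, `r' < r`, then the pull backs of the disc of radius `r` at `f^n(x)` along `x, .., f^n(x)` contain critical
points at more than `D` times if `x ∈ K`, `f^n(x)` is near `y`, `n ≥ N`. `con`: for `r' < r`, `δ > 0`, `D` there is `N` such that for all `n ≥ N`, `x ∈ K` for which these pull backs contain critical points at most `D` times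
the point `f^n(x)` is `δ`-near a point `y` of `K` whose component contains a point `z` with `r' ≤ chord y z`. `con_fam`: all families.

PROOF. As `pnt`, `tdu` in H3/UP/TDU: `clpg` gives `A ⊆ K` with `A`, `K \ A` closed, `y ∈ A`, `A` in the disc of radius `r'` at `y`; `E` is a small neighbourhood of `A`, `K ∩ E = A`, `E` is in the disc of radius `r` at every
point near `y`. `gue`.
-/

set_option autoImplicit false

open Filter Topology Set Polynomial

namespace Pool.Agent.H39.CTN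

open Pool.Agent.H35.EX (chord chord_comm)
open Pool.Agent.H32.BT (IsCrit)
open Pool.Agent.H44.RR (chord_zero)
open Pool.Agent.H44.RC (CC cc_open cc_mem cc_sub cc_map cc_eq cc_mono cc_max ch_ball ch_tri ch_nhds JS)
open Pool.Agent.H3.NC (Wk CT PR)
open Pool.Agent.H3.UP (gue kj_cl kj_it fat_fam)
open Pool.Agent.H64.JS (KJ kj_inv kj_sub it_mem)
open Pool.Agent.H79.Eul Pool.Agent.H79.Par
open Pool.Agent.H64.TP (KK)
open Pool.Agent.H57.CF Pool.Agent.H47.NM

/-- A component in an open set has a relatively clopen neighbourhood in it. -/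
theorem clpg {X : Type*} [TopologicalSpace X] [CompactSpace X] [T2Space X] {K : Set X} (hK : IsClosed K) {y : X}
    (hy : y ∈ K) {U : Set X} (hU : IsOpen U) (hc : connectedComponentIn K y ⊆ U) :
    ∃ A : Set X, A ⊆ K ∧ IsClosed A ∧ IsClosed (K \ A) ∧ y ∈ A ∧ A ⊆ U := by
  have hcK : CompactSpace K := isCompact_iff_compactSpace.1 hK.isCompact
  have h1 : connectedComponent (⟨y, hy⟩ : K) ⊆ {z : K | (z : X) ∈ U} := by
    intro z hz
    have h2 : (z : X) ∈ connectedComponentIn K y := by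
      rw [connectedComponentIn_eq_image hy]
      exact ⟨z, hz, rfl⟩
    exact hc h2
  rw [connectedComponent_eq_iInter_isClopen] at h1
  have hUo : IsOpen {z : K | (z : X) ∈ U} := hU.preimage continuous_subtype_val
  obtain ⟨s, hs⟩ : ∃ s : {s : Set K // IsClopen s ∧ (⟨y, hy⟩ : K) ∈ s}, (s : Set K) ⊆ {z : K | (z : X) ∈ U} := by
    have hne : Nonempty {s : Set K // IsClopen s ∧ (⟨y, hy⟩ : K) ∈ s} := ⟨⟨univ, isClopen_univ, mem_univ _⟩⟩
    have hd : Directed (· ⊇ ·) fun s : {s : Set K // IsClopen s ∧ (⟨y, hy⟩ : K) ∈ s} => (s : Set K) := by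
      intro s t
      exact ⟨⟨s.1 ∩ t.1, s.2.1.inter t.2.1, s.2.2, t.2.2⟩, inter_subset_left, inter_subset_right⟩
    exact exists_subset_nhds_of_compactSpace hd (fun s => s.2.1.1) fun z hz => hUo.mem_nhds (h1 hz)
  refine ⟨(↑) '' (s : Set K), ?_, ?_, ?_, ⟨⟨y, hy⟩, s.2.2, rfl⟩, ?_⟩
  · rintro _ ⟨z, -, rfl⟩
    exact z.2
  · exact (hK.isClosedEmbedding_subtypeVal.isClosedMap _ s.2.1.1)
  · have h2 : K \ ((↑) '' (s : Set K)) = (↑) '' ((s : Set K)ᶜ) := by
      ext z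
      constructor
      · rintro ⟨hz, hz2⟩
        refine ⟨⟨z, hz⟩, fun h => hz2 ⟨⟨z, hz⟩, h, rfl⟩, rfl⟩
      · rintro ⟨w, hw, rfl⟩
        refine ⟨w.2, ?_⟩
        rintro ⟨w', hw', he⟩
        rw [Subtype.coe_injective he] at hw'
        exact hw hw'
    rw [h2]
    exact (hK.isClosedEmbedding_subtypeVal.isClosedMap _ s.2.1.2.isClosed_compl)
  · rintro _ ⟨z, hz, rfl⟩
    exact hs hz

variable {f : OnePoint ℂ → OnePoint ℂ}

theorem pntg (hf : Continuous f) (hfin : {c | IsCrit f c}.Finite) {J : Set (OnePoint ℂ)} (hJc : IsClosed J)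
    (hJi : ∀ x ∈ J, f x ∈ J)
    (hfat : ∀ c, IsCrit f c → c ∉ J → ∃ (δ : ℝ) (N : ℕ), 0 < δ ∧ ∀ m, N ≤ m → ∀ y ∈ J, δ ≤ chord (f^[m] c) y)
    (hpr : ∀ c, IsCrit f c → c ∈ J → PR f c) {y : OnePoint ℂ} (hy : y ∈ KJ {c | IsCrit f c} J f) {r r' : ℝ}
    (hr : r' < r) (hcy : connectedComponentIn (KJ {c | IsCrit f c} J f) y ⊆ {z | chord y z < r'}) (D : ℕ) :
    ∃ N : ℕ, ∃ U ∈ 𝓝 y, ∀ n, N ≤ n → ∀ x ∈ KJ {c | IsCrit f c} J f, f^[n] x ∈ U → D < (CT f x n r).ncard := by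
  have hdy : IsOpen {z | chord y z < r'} := ch_ball y r'
  obtain ⟨A, hAK, hA, hA', hyA, hAU⟩ := clpg (kj_cl J) hy hdy hcy
  have hr0 : 0 < r' := by
    have h1 : chord y y < r' := hcy (mem_connectedComponentIn hy)
    rwa [chord_zero] at h1
  obtain ⟨ρ0, hρ0, hρ1⟩ := Pool.Agent.H64.NC.ch_sep hA hA' (disjoint_left.2 fun x hx hx' => hx'.2 hx)
  obtain ⟨ρ, hρ⟩ : ∃ ρ : ℝ, ρ = min ρ0 ((r - r') / 2) := ⟨_, rfl⟩
  have hρp : 0 < ρ := by rw [hρ]; exact lt_min hρ0 (by linarith)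
  have hρ0' : ρ ≤ ρ0 := by rw [hρ]; exact min_le_left _ _
  have hρδ : ρ ≤ (r - r') / 2 := by rw [hρ]; exact min_le_right _ _
  obtain ⟨E, hE⟩ : ∃ E : Set (OnePoint ℂ), E = ⋃ a ∈ A, {z | chord a z < ρ} := ⟨_, rfl⟩
  have hEo : IsOpen E := by
    rw [hE]
    exact isOpen_biUnion fun a _ => ch_ball a ρ
  have hAE : A ⊆ E := by
    intro a ha
    rw [hE]
    refine mem_biUnion ha ?_
    show chord a a < ρ
    rw [chord_zero]
    exact hρp
  have hKE : KJ {c | IsCrit f c} J f ∩ E = A := by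
    refine Subset.antisymm ?_ fun a ha => ⟨hAK ha, hAE ha⟩
    rintro z ⟨hz, hzE⟩
    rw [hE] at hzE
    obtain ⟨a, ha, hza⟩ := mem_iUnion₂.1 hzE
    by_contra hzA
    have h1 := hρ1 a ha z ⟨hz, hzA⟩
    have h2 : chord a z < ρ := hza
    linarith
  obtain ⟨N, hN⟩ := gue hf hfin hJc hJi hfat hpr hEo (by rw [hKE]; exact hA) D
  have hUn : (KJ {c | IsCrit f c} J f \ A)ᶜ ∩ {z | chord y z < (r - r') / 2} ∈ 𝓝 y := by
    refine inter_mem (hA'.isOpen_compl.mem_nhds fun h => h.2 hyA) ((ch_ball y _).mem_nhds ?_)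
    show chord y y < (r - r') / 2
    rw [chord_zero]
    linarith
  refine ⟨N, _, hUn, fun n hn x hx hxU => ?_⟩
  have hxK := kj_it hf hx n
  have hxA : f^[n] x ∈ A := by
    by_contra h
    exact hxU.1 ⟨hxK, h⟩
  have hxd : chord y (f^[n] x) < (r - r') / 2 := hxU.2
  refine (hN n hn x hx (hAE hxA)).trans_le (Set.ncard_le_ncard ?_ ((finite_lt_nat n).subset fun _ hk => hk.1))
  rintro k ⟨hk, c, hc, hcW⟩
  refine ⟨hk, c, hc, ?_⟩
  have hsub : E ⊆ {z | chord z (f^[n] x) < r} := by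
    intro z hz
    rw [hE] at hz
    obtain ⟨a, ha, hza⟩ := mem_iUnion₂.1 hz
    have h1 : chord a z < ρ := hza
    have h2 : chord y a < r' := hAU ha
    have h4 := ch_tri z a (f^[n] x)
    have h5 := ch_tri a y (f^[n] x)
    rw [chord_comm] at h1 h2
    show chord z (f^[n] x) < r
    linarith
  have h1 : f^[n - k] (f^[k] x) = f^[n] x := by rw [← Function.iterate_add_apply, Nat.sub_add_cancel hk.le]
  have h2 : f^[k] x ∈ CC f (n - k) {z | chord z (f^[n] x) < r} (f^[k] x) := by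
    refine cc_mem ?_
    show chord (f^[n - k] (f^[k] x)) (f^[n] x) < r
    rw [h1, chord_zero]
    linarith
  exact cc_mono hsub h2 hcW

theorem con (hf : Continuous f) (hfin : {c | IsCrit f c}.Finite) {J : Set (OnePoint ℂ)} (hJc : IsClosed J)
    (hJi : ∀ x ∈ J, f x ∈ J)
    (hfat : ∀ c, IsCrit f c → c ∉ J → ∃ (δ : ℝ) (N : ℕ), 0 < δ ∧ ∀ m, N ≤ m → ∀ y ∈ J, δ ≤ chord (f^[m] c) y)
    (hpr : ∀ c, IsCrit f c → c ∈ J → PR f c) {r r' δ : ℝ} (hr : r' < r) (hδ : 0 < δ) (D : ℕ) :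
    ∃ N : ℕ, ∀ n, N ≤ n → ∀ x ∈ KJ {c | IsCrit f c} J f, (CT f x n r).ncard ≤ D →
      ∃ y ∈ KJ {c | IsCrit f c} J f, chord (f^[n] x) y < δ ∧
        ∃ z ∈ connectedComponentIn (KJ {c | IsCrit f c} J f) y, r' ≤ chord y z := by
  have h1 : ∀ y ∈ KJ {c | IsCrit f c} J f, ∃ N : ℕ, ∃ U ∈ 𝓝 y, ∀ n, N ≤ n → ∀ x ∈ KJ {c | IsCrit f c} J f,
      f^[n] x ∈ U → (CT f x n r).ncard ≤ D → ∃ y ∈ KJ {c | IsCrit f c} J f, chord (f^[n] x) y < δ ∧
        ∃ z ∈ connectedComponentIn (KJ {c | IsCrit f c} J f) y, r' ≤ chord y z := by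
    intro y hy
    by_cases hz : ∃ z ∈ connectedComponentIn (KJ {c | IsCrit f c} J f) y, r' ≤ chord y z
    · refine ⟨0, {z | chord y z < δ}, (ch_ball y δ).mem_nhds ?_, fun n _ x _ hxU _ => ⟨y, hy, ?_, hz⟩⟩
      · show chord y y < δ
        rw [chord_zero]
        exact hδ
      · rw [chord_comm]
        exact hxU
    · push Not at hz
      obtain ⟨N, U, hU, hN⟩ := pntg hf hfin hJc hJi hfat hpr hy hr (fun z hz' => hz z hz') D
      exact ⟨N, U, hU, fun n hn x hx hxU hle => absurd hle (not_le.2 (hN n hn x hx hxU))⟩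
  choose! N U hU hN using h1
  obtain ⟨t, ht, hcov⟩ := (kj_cl (f := f) J).isCompact.elim_nhds_subcover U hU
  refine ⟨t.sup N, fun n hn x hx hle => ?_⟩
  obtain ⟨y, hyt, hy⟩ := mem_iUnion₂.1 (hcov (kj_it hf hx n))
  exact hN y (ht y hyt) n ((Finset.le_sup hyt).trans hn) x hx hy hle

theorem con_fam {d m : ℕ} (hd : 2 ≤ d) (hm : m ≤ d) {x : Em d m} (hcop : IsCoprime (pol x.1) (pol x.2))
    (hdeg : max (pol x.1).natDegree (pol x.2).natDegree = d) (hup : ¬ UpF d m x) {r r' δ : ℝ} (hr : r' < r)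
    (hδ : 0 < δ) (D : ℕ) :
    ∃ N : ℕ, ∀ n, N ≤ n → ∀ p ∈ KK (Rf (ex d m x)), (CT (Rf (ex d m x)) p n r).ncard ≤ D →
      ∃ y ∈ KK (Rf (ex d m x)), chord ((Rf (ex d m x))^[n] p) y < δ ∧
        ∃ z ∈ connectedComponentIn (KK (Rf (ex d m x))) y, r' ≤ chord y z := by
  have hcop' := ex_cop hcop
  have hdeg' := ex_deg hdeg
  have hd1 : 1 ≤ max (pol (ex d m x).1).natDegree (pol (ex d m x).2).natDegree := by
    rw [hdeg']; omega
  have hf : Continuous (Rf (ex d m x)) := Pool.Agent.H44.Fatou.rat_continuous hcop'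
  have hfin : {c | IsCrit (Rf (ex d m x)) c}.Finite := Pool.Agent.H32.BT.crit_finite hcop' hd1
  exact con hf hfin (Pool.Agent.H47.RJ.js_closed _)
    (fun z hz hF => hz ((Pool.Agent.H47.RJ.fs_iff (by omega) hcop' hdeg' 1 z).1 hF)) (fat_fam hd hm hcop hdeg hup)
    (Pool.Agent.H64.NC.pr_end hd hm hcop hdeg hup) hr hδ D

/-- A limit point `y` of the `f^n(x)` with at most `D` critical times of the disc of radius `r` lies in a component of `K` which contains a point `z` with `r' ≤ chord y z`. -/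
theorem con_lim (hf : Continuous f) (hfin : {c | IsCrit f c}.Finite) {J : Set (OnePoint ℂ)} (hJc : IsClosed J)
    (hJi : ∀ x ∈ J, f x ∈ J)
    (hfat : ∀ c, IsCrit f c → c ∉ J → ∃ (δ : ℝ) (N : ℕ), 0 < δ ∧ ∀ m, N ≤ m → ∀ y ∈ J, δ ≤ chord (f^[m] c) y)
    (hpr : ∀ c, IsCrit f c → c ∈ J → PR f c) {r r' : ℝ} (hr : r' < r) {D : ℕ} {x y : OnePoint ℂ}
    (hx : x ∈ KJ {c | IsCrit f c} J f)
    (hy : ∀ U ∈ 𝓝 y, ∀ N : ℕ, ∃ n, N ≤ n ∧ f^[n] x ∈ U ∧ (CT f x n r).ncard ≤ D) :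
    ∃ z ∈ connectedComponentIn (KJ {c | IsCrit f c} J f) y, r' ≤ chord y z := by
  have hyK : y ∈ KJ {c | IsCrit f c} J f := by
    rw [← (kj_cl (f := f) J).closure_eq, mem_closure_iff_nhds]
    intro U hU
    obtain ⟨n, -, hn, -⟩ := hy U hU 0
    exact ⟨_, hn, kj_it hf hx n⟩
  by_contra hz
  push Not at hz
  obtain ⟨N, U, hU, hN⟩ := pntg hf hfin hJc hJi hfat hpr hyK hr (fun z hz' => hz z hz') D
  obtain ⟨n, hn, hnU, hle⟩ := hy U hU N
  exact absurd hle (not_le.2 (hN n hn x hx hnU))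

end Pool.Agent.H39.CTN
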