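import Pool.Agent.H39.CTN.Main
import Pool.Agent.H56.UE.UEX
import Pool.Agent.H32.BT.Fam

/-!
# Periodic points of the closure of the critical orbits lie in components which are not points

`K = KJ {c | IsCrit f c} J f`. `per_comp`: if `x ∈ K` is periodic and has a positive upper exponent (all periodic points of the Julia set of a locally maximal map) then the component of `x` in `K` is not a point. `pue_comp`: if `x ∈ K` has a
positive upper exponent then there are `r' > 0` and a limit point `y` of `f^n(x)` whose component in `K` contains a point `z` with `r' ≤ chord y z`.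

PROOF. `ue`: the disc of radius `δ` at `f^n(x)` has at most `M` critical times for infinitely many `n`; for `x` periodic infinitely many of them are in one residue class modulo the period, `y = f^n(x)` for these `n`, and `con_lim`
gives a component of `y` which is not a point. An iterate of `f` maps it into the component of `x`; the fibres are finite and a connected set with two points is infinite.
-/

set_option autoImplicit false

open Filter Topology Set Polynomial

namespace Pool.Agent.H39.CTN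

open Pool.Agent.H35.EX (chord chord_comm)
open Pool.Agent.H32.BT (IsCrit iter_fiber_finite)
open Pool.Agent.H44.Fatou (rat)
open Pool.Agent.H44.RR (chord_zero)
open Pool.Agent.H44.RC (ch_ball)
open Pool.Agent.H3.NC (CT PR)
open Pool.Agent.H3.UP (kj_cl kj_it)
open Pool.Agent.H64.JS (KJ)
open Pool.Agent.H56.UE (PUE ue)

theorem pue_comp {P Q : Polynomial ℂ} (hcop : IsCoprime P Q) (hd : 1 ≤ max P.natDegree Q.natDegree)
    (hf : Continuous (rat P Q)) (hfin : {c | IsCrit (rat P Q) c}.Finite) {J : Set (OnePoint ℂ)} (hJc : IsClosed J)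
    (hJi : ∀ x ∈ J, rat P Q x ∈ J)
    (hfat : ∀ c, IsCrit (rat P Q) c → c ∉ J → ∃ (δ : ℝ) (N : ℕ), 0 < δ ∧ ∀ m, N ≤ m → ∀ y ∈ J,
      δ ≤ chord ((rat P Q)^[m] c) y)
    (hpr : ∀ c, IsCrit (rat P Q) c → c ∈ J → PR (rat P Q) c) {x : OnePoint ℂ}
    (hx : x ∈ KJ {c | IsCrit (rat P Q) c} J (rat P Q)) (hp : PUE (rat P Q) x) :
    ∃ r' : ℝ, 0 < r' ∧ ∃ y, MapClusterPt y atTop (fun n : ℕ => (rat P Q)^[n] x) ∧
      ∃ z ∈ connectedComponentIn (KJ {c | IsCrit (rat P Q) c} J (rat P Q)) y, r' ≤ chord y z := by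
  obtain ⟨δ, hδ, M, hinf⟩ := ue hcop hd hp
  obtain ⟨φ, hφ, hφm⟩ : ∃ φ : ℕ → ℕ, StrictMono φ ∧ ∀ i, (CT (rat P Q) x (φ i) δ).ncard ≤ M := by
    refine ⟨Nat.nth (fun n => (CT (rat P Q) x n δ).ncard ≤ M), Nat.nth_strictMono hinf, fun i => ?_⟩
    exact Nat.nth_mem_of_infinite hinf i
  have hKc : IsCompact (KJ {c | IsCrit (rat P Q) c} J (rat P Q)) := (kj_cl J).isCompact
  obtain ⟨y, -, hy⟩ := hKc.exists_mapClusterPt_of_frequently (f := fun i : ℕ => (rat P Q)^[φ i] x) (l := atTop)
    (Eventually.frequently (Eventually.of_forall fun i => kj_it hf hx (φ i)))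
  refine ⟨δ / 2, by linarith, y, hy.of_comp hφ.tendsto_atTop, ?_⟩
  refine con_lim hf hfin hJc hJi hfat hpr (half_lt_self hδ) (D := M) hx fun U hU N => ?_
  obtain ⟨i, hi, hiN⟩ := ((hy.frequently hU).and_eventually (hφ.tendsto_atTop.eventually_ge_atTop N)).exists
  exact ⟨φ i, hiN, hi, hφm i⟩

theorem per_comp {P Q : Polynomial ℂ} (hcop : IsCoprime P Q) (hd : 1 ≤ max P.natDegree Q.natDegree)
    (hf : Continuous (rat P Q)) (hfin : {c | IsCrit (rat P Q) c}.Finite) {J : Set (OnePoint ℂ)} (hJc : IsClosed J)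
    (hJi : ∀ x ∈ J, rat P Q x ∈ J)
    (hfat : ∀ c, IsCrit (rat P Q) c → c ∉ J → ∃ (δ : ℝ) (N : ℕ), 0 < δ ∧ ∀ m, N ≤ m → ∀ y ∈ J,
      δ ≤ chord ((rat P Q)^[m] c) y)
    (hpr : ∀ c, IsCrit (rat P Q) c → c ∈ J → PR (rat P Q) c) {x : OnePoint ℂ}
    (hx : x ∈ KJ {c | IsCrit (rat P Q) c} J (rat P Q)) {p : ℕ} (hp0 : 0 < p) (hper : (rat P Q)^[p] x = x)
    (hp : PUE (rat P Q) x) :
    connectedComponentIn (KJ {c | IsCrit (rat P Q) c} J (rat P Q)) x ≠ {x} := by
  classical
  obtain ⟨δ, hδ, M, hinf⟩ := ue hcop hd hp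
  obtain ⟨K, hK⟩ : ∃ K, K = KJ {c | IsCrit (rat P Q) c} J (rat P Q) := ⟨_, rfl⟩
  -- one residue class
  obtain ⟨i, hip, hi⟩ : ∃ i < p, {n : ℕ | (CT (rat P Q) x n δ).ncard ≤ M ∧ n % p = i}.Infinite := by
    by_contra hcon
    push Not at hcon
    refine hinf ?_
    have h1 : {n : ℕ | (CT (rat P Q) x n δ).ncard ≤ M} ⊆
        ⋃ i ∈ Finset.range p, {n : ℕ | (CT (rat P Q) x n δ).ncard ≤ M ∧ n % p = i} := by
      intro n hn
      refine mem_iUnion₂.2 ⟨n % p, Finset.mem_range.2 (Nat.mod_lt n hp0), hn, rfl⟩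
    refine Set.Finite.subset (Set.Finite.biUnion (Finset.finite_toSet _) fun i hi => ?_) h1
    exact hcon i (Finset.mem_range.1 hi)
  have hpk : ∀ k : ℕ, (rat P Q)^[p * k] x = x := by
    intro k
    rw [Function.iterate_mul]
    exact Function.iterate_fixed hper k
  have hni : ∀ n : ℕ, n % p = i → (rat P Q)^[n] x = (rat P Q)^[i] x := by
    intro n hn
    have h1 : n = i + p * (n / p) := by
      have h2 := Nat.mod_add_div n p
      rw [hn] at h2
      exact h2.symm
    rw [h1, Function.iterate_add_apply, hpk]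
  obtain ⟨z, hz, hrz⟩ := con_lim hf hfin hJc hJi hfat hpr (half_lt_self hδ) (D := M) hx
    (y := (rat P Q)^[i] x) fun U hU N => by
      obtain ⟨n, ⟨hn1, hn2⟩, hnN⟩ := hi.exists_gt N
      refine ⟨n, hnN.le, ?_, hn1⟩
      rw [hni n hn2]
      exact mem_of_mem_nhds hU
  intro hsing
  rw [← hK] at hz hsing hx
  have hyK : (rat P Q)^[i] x ∈ K := by
    rw [hK] at hx ⊢
    exact kj_it hf hx i
  have hne : (rat P Q)^[i] x ≠ z := by
    intro h
    rw [← h, chord_zero] at hrz
    linarith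
  have hnt : (connectedComponentIn K ((rat P Q)^[i] x)).Nontrivial :=
    ⟨_, mem_connectedComponentIn hyK, z, hz, hne⟩
  have hinf2 := isPreconnected_connectedComponentIn.infinite_of_nontrivial hnt
  refine hinf2 ((iter_fiber_finite hcop hd (p - i) x).subset fun w hw => ?_)
  have hpc : IsPreconnected ((rat P Q)^[p - i] '' connectedComponentIn K ((rat P Q)^[i] x)) :=
    isPreconnected_connectedComponentIn.image _ (hf.iterate _).continuousOn
  have hxm : x ∈ (rat P Q)^[p - i] '' connectedComponentIn K ((rat P Q)^[i] x) := by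
    refine ⟨_, mem_connectedComponentIn hyK, ?_⟩
    rw [← Function.iterate_add_apply, Nat.sub_add_cancel hip.le, hper]
  have hsubK : (rat P Q)^[p - i] '' connectedComponentIn K ((rat P Q)^[i] x) ⊆ K := by
    rintro _ ⟨w', hw', rfl⟩
    have h1 : w' ∈ K := connectedComponentIn_subset _ _ hw'
    rw [hK] at h1 ⊢
    exact kj_it hf h1 _
  have h2 := hpc.subset_connectedComponentIn hxm hsubK (mem_image_of_mem _ hw)
  rw [hsing] at h2
  exact h2

end Pool.Agent.H39.CTN
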